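import Pool.Agent.Helper72.UGE.Final

/-!
# Project UGU, last step: one gap for all moduli

From the window theorem with a gap which depends on the number of shifts only (hypothesis `hwin`), the case of one
shift (from the Matomaki-Radziwill theorem in progressions) and the translation to the sums of `∏ λ(n + b)`.
-/

set_option autoImplicit false

namespace Pool.Agent.Helper8.UGU

open Finset MRP UGD UGA UGE

theorem shift_one (g : ℕ → ℝ) (hg : ∀ n, |g n| ≤ 1) (M k : ℕ) :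
    |∑ n ∈ Icc 1 M, g (n + k) - ∑ n ∈ Icc 1 M, g n| ≤ 2 * k := by
  induction k with
  | zero => simp
  | succ k ih =>
    have h1 : ∑ n ∈ Icc 1 M, g (n + (k + 1)) - ∑ n ∈ Icc 1 M, g (n + k) = g (M + 1 + k) - g (1 + k) := by
      clear ih
      induction M with
      | zero => simp
      | succ M ihM =>
        rw [Finset.sum_Icc_succ_top (by omega), Finset.sum_Icc_succ_top (by omega)]
        have e1 : M + 1 + (k + 1) = M + 1 + 1 + k := by ring
        rw [e1]
        linarith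
    have h2 := abs_le.1 (hg (M + 1 + k))
    have h3 := abs_le.1 (hg (1 + k))
    have h4 := abs_le.1 ih
    rw [abs_le]
    push_cast
    constructor <;> linarith [h2.1, h2.2, h3.1, h3.2, h4.1, h4.2]

/-- The mean of `λ` over a class, at every large scale. -/
theorem mean_class (q : ℕ) (hq : 0 < q) (b : ℕ) : ∃ M₀ : ℕ, ∀ M : ℕ, M₀ ≤ M → ∀ r : ℕ,
    |∑ n ∈ (Icc 1 M).filter (fun n => n % q = r), NE.lamR (n + b)| ≤ (1 / 4) * ((M : ℝ) / q) := by
  classical
  have hqR : (0 : ℝ) < q := by exact_mod_cast hq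
  obtain ⟨S₀, hS₀, hmr⟩ := mr_shift q hq (1 / (8 * q)) (by positivity)
  obtain ⟨M₁, hM₁⟩ := hmr S₀ le_rfl
  set S : ℕ := S₀ with hS
  have hSR : (0 : ℝ) < S := by exact_mod_cast hS₀
  refine ⟨M₁ + 16 * q * q * S + b, fun M hM r => ?_⟩
  have hMR : (16 * q * q * S + b : ℝ) ≤ M := by
    have : 16 * q * q * S + b ≤ M := by omega
    exact_mod_cast this
  have hlam : ∀ n, |NE.lamR n| ≤ 1 := by
    intro n
    unfold NE.lamR
    rw [abs_pow, abs_neg, abs_one, one_pow]
  set g : ℕ → ℝ := fun n => if n % q = r then NE.lamR (n + b) else 0 with hg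
  have hg1 : ∀ n, |g n| ≤ 1 := by
    intro n
    simp only [hg]
    split_ifs
    · exact hlam _
    · simp
  set T : ℝ := ∑ n ∈ Icc 1 M, g n with hT
  have hT' : ∑ n ∈ (Icc 1 M).filter (fun n => n % q = r), NE.lamR (n + b) = T := by
    rw [hT, Finset.sum_filter]
  rw [hT']
  -- the average over the shifts
  have h1 : |∑ s ∈ Icc 1 S, ∑ n ∈ Icc 1 M, g (n + q * s) - (S : ℝ) * T| ≤ 2 * q * S * S := by
    have e1 : (S : ℝ) * T = ∑ _s ∈ Icc 1 S, T := by
      rw [Finset.sum_const, Nat.card_Icc, nsmul_eq_mul, Nat.add_sub_cancel]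
    rw [e1, ← Finset.sum_sub_distrib]
    refine (Finset.abs_sum_le_sum_abs _ _).trans ?_
    calc ∑ s ∈ Icc 1 S, |∑ n ∈ Icc 1 M, g (n + q * s) - T| ≤ ∑ _s ∈ Icc 1 S, 2 * (q : ℝ) * S := by
          refine Finset.sum_le_sum fun s hs => ?_
          have h2 := shift_one g hg1 M (q * s)
          have h3 : (s : ℝ) ≤ S := by exact_mod_cast (Finset.mem_Icc.1 hs).2
          refine h2.trans ?_
          push_cast
          nlinarith
      _ = 2 * q * S * S := by
          rw [Finset.sum_const, Nat.card_Icc, nsmul_eq_mul, Nat.add_sub_cancel]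
          ring
  have h2 : |∑ s ∈ Icc 1 S, ∑ n ∈ Icc 1 M, g (n + q * s)| ≤
      ∑ n ∈ Icc 1 M, |∑ s ∈ Icc 1 S, NE.lamR (n + b + q * s)| := by
    rw [Finset.sum_comm]
    refine (Finset.abs_sum_le_sum_abs _ _).trans (Finset.sum_le_sum fun n _ => ?_)
    by_cases hn : n % q = r
    · refine le_of_eq ?_
      congr 1
      refine Finset.sum_congr rfl fun s _ => ?_
      simp only [hg]
      rw [Nat.add_mul_mod_self_left, if_pos hn]
      congr 1
      ring
    · have : ∑ s ∈ Icc 1 S, g (n + q * s) = 0 := by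
        refine Finset.sum_eq_zero fun s _ => ?_
        simp only [hg]
        rw [Nat.add_mul_mod_self_left, if_neg hn]
      rw [this, abs_zero]
      exact abs_nonneg _
  have h3 : ∑ n ∈ Icc 1 M, |∑ s ∈ Icc 1 S, NE.lamR (n + b + q * s)| ≤
      ∑ m ∈ Icc 1 (M + b), |∑ s ∈ Icc 1 S, NE.lamR (m + q * s)| := by
    have e1 : ∑ n ∈ Icc 1 M, |∑ s ∈ Icc 1 S, NE.lamR (n + b + q * s)| =
        ∑ m ∈ (Icc 1 M).image (fun n => n + b), |∑ s ∈ Icc 1 S, NE.lamR (m + q * s)| := by
      rw [Finset.sum_image]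
      intro x _ y _ h
      exact Nat.add_right_cancel h
    rw [e1]
    refine Finset.sum_le_sum_of_subset_of_nonneg ?_ fun m _ _ => abs_nonneg _
    intro m hm
    obtain ⟨n, hn, rfl⟩ := Finset.mem_image.1 hm
    rw [Finset.mem_Icc] at hn ⊢
    constructor
    · omega
    · omega
  have h4 := hM₁ (M + b) (by omega)
  have h5 : (S : ℝ) * |T| ≤ 1 / (8 * q) * S * ((M + b : ℕ) : ℝ) + 2 * q * S * S := by
    have e1 : (S : ℝ) * |T| = |(S : ℝ) * T| := by rw [abs_mul, abs_of_pos hSR]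
    rw [e1]
    have h6 := abs_le.1 h1
    have h7 := abs_le.1 (h2.trans (h3.trans h4))
    rw [abs_le]
    constructor <;> linarith [h6.1, h6.2, h7.1, h7.2]
  have h6 : |T| ≤ 1 / (8 * q) * ((M + b : ℕ) : ℝ) + 2 * q * S := by
    have e1 : 1 / (8 * (q : ℝ)) * S * ((M + b : ℕ) : ℝ) + 2 * q * S * S =
        S * (1 / (8 * q) * ((M + b : ℕ) : ℝ) + 2 * q * S) := by ring
    rw [e1] at h5
    exact le_of_mul_le_mul_left h5 hSR
  refine h6.trans ?_
  push_cast
  have e1 : 1 / (8 * (q : ℝ)) * (M + b) + 2 * q * S = ((M + b) + 16 * q * q * S) / (8 * q) := by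
    field_simp
    ring
  have e2 : 1 / 4 * ((M : ℝ) / q) = (2 * M) / (8 * q) := by
    field_simp
    ring
  rw [e1, e2]
  exact div_le_div_of_nonneg_right (by linarith) (by positivity)

/-- One shift, every scale, a gap which does not depend on the modulus. -/
theorem one_shiftU (q : ℕ) (hq : 0 < q) (b : ℕ) : ∃ M₀ : ℕ, ∀ M : ℕ, M₀ ≤ M →
    ∀ r < q, ∀ t : ZMod 2, (1 / 8 : ℝ) * ((M : ℝ) / q) < (exB {b} q r t M : ℝ) := by
  classical
  have hqR : (0 : ℝ) < q := by exact_mod_cast hq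
  obtain ⟨M₀, h⟩ := mean_class q hq b
  refine ⟨M₀ + 4 * q, fun M hM r hr t => ?_⟩
  have h1 := h M (by omega) r
  have h2 := corr_eq {b} q r M t
  have h3 : ∑ n ∈ (Icc 1 M).filter (fun n => n % q = r),
      ∏ b' ∈ ({b} : Finset ℕ), (-1 : ℝ) ^ (ArithmeticFunction.cardFactors (n + b')) =
      ∑ n ∈ (Icc 1 M).filter (fun n => n % q = r), NE.lamR (n + b) := by
    refine Finset.sum_congr rfl fun n _ => ?_
    rw [Finset.prod_singleton]
    rfl
  rw [h3] at h2
  rw [h2, abs_mul, sg_abs, one_mul] at h1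
  have h4 := (abs_le.1 h1).2
  -- the class has at least `M / q - 1` elements
  have h5 : (M : ℝ) / q - 1 ≤ (((Icc 1 M).filter (fun n => n % q = r)).card : ℝ) := by
    have e0 : (M : ℝ) / q - 1 ≤ ((M / q : ℕ) : ℝ) := by
      have := Nat.lt_floor_add_one ((M : ℝ) / q)
      rw [Nat.floor_div_eq_div] at this
      linarith
    refine e0.trans ?_
    have e1 : M / q ≤ ((Icc 1 M).filter (fun n => n % q = r)).card := by
      have e2 : ((Icc 1 (M / q)).image (fun k => (k - 1) * q + (if r = 0 then q else r))) ⊆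
          (Icc 1 M).filter (fun n => n % q = r) := by
        intro n hn
        obtain ⟨k, hk, rfl⟩ := Finset.mem_image.1 hn
        rw [Finset.mem_Icc] at hk
        have h6 : k * q ≤ M := (Nat.le_div_iff_mul_le hq).1 hk.2
        have h7 : (k - 1) * q + q = k * q := by
          obtain ⟨j, rfl⟩ : ∃ j, k = j + 1 := ⟨k - 1, by omega⟩
          simp only [Nat.add_sub_cancel]
          ring
        rw [Finset.mem_filter, Finset.mem_Icc]
        by_cases hr0 : r = 0
        · rw [if_pos hr0, h7]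
          refine ⟨⟨?_, h6⟩, ?_⟩
          · exact Nat.mul_pos (by omega) hq
          · rw [hr0, Nat.mul_mod_left]
        · rw [if_neg hr0]
          refine ⟨⟨by omega, by omega⟩, ?_⟩
          rw [Nat.mul_add_mod_self_right, Nat.mod_eq_of_lt hr]
      have e3 := Finset.card_le_card e2
      rw [Finset.card_image_of_injOn, Nat.card_Icc, Nat.add_sub_cancel] at e3
      · exact e3
      · intro x hx y hy hxy
        simp only [Finset.coe_Icc, Set.mem_Icc] at hx hy
        simp only at hxy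
        have h8 : (x - 1) * q = (y - 1) * q := Nat.add_right_cancel hxy
        have h9 := Nat.eq_of_mul_eq_mul_right hq h8
        omega
    exact_mod_cast e1
  have h6 : (4 : ℝ) ≤ (M : ℝ) / q := by
    rw [le_div_iff₀ hqR]
    have : 4 * q ≤ M := by omega
    exact_mod_cast this
  linarith

/-- The window theorem for `d` smaller shifts and one largest shift, with a gap which depends on `d` only. -/
def WinU (d : ℕ) : Prop := ∃ δ : ℝ, 0 < δ ∧ ∀ (q : ℕ) [NeZero q] (h : Fin d → ℕ) (H : ℕ),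
  (∀ i, h i < H) → ∀ r < q, ∀ t : ZMod 2, ∀ ε : ℝ, 0 < ε → ∃ K₀ : ℕ, ∀ N K : ℕ, K₀ ≤ K → K ≤ N →
    ∑ M ∈ Ioc (N / K) N, (if (UGE.ex h H q r t M : ℝ) ≤ δ * ((M : ℝ) / q) then 1 / (M : ℝ) else 0) ≤
      ε * Real.log K

/-- The gap at almost all scales, for each class and sign. -/
theorem winBU (hwin : ∀ d, 1 ≤ d → WinU d) (l : ℕ) (hl : 1 ≤ l) : ∃ δ : ℝ, 0 < δ ∧
    ∀ q : ℕ, 0 < q → ∀ B : Finset ℕ, B.card = l → ∀ r < q, ∀ t : ZMod 2, ∀ ε : ℝ, 0 < ε →
      ∃ K₀ : ℕ, ∀ N K : ℕ, K₀ ≤ K → K ≤ N →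
        ∑ M ∈ Ioc (N / K) N, (if (exB B q r t M : ℝ) ≤ δ * ((M : ℝ) / q) then 1 / (M : ℝ) else 0) ≤
          ε * Real.log K := by
  classical
  obtain ⟨d, rfl⟩ : ∃ d, l = d + 1 := ⟨l - 1, by omega⟩
  rcases Nat.eq_zero_or_pos d with hd | hd
  · subst hd
    refine ⟨1 / 8, by norm_num, fun q hq B hB r hr t ε hε => ?_⟩
    obtain ⟨b, rfl⟩ := Finset.card_eq_one.1 hB
    obtain ⟨M₀, hM₀⟩ := one_shiftU q hq b
    set a : ℝ := ∑ M ∈ Icc 1 M₀, 1 / (M : ℝ) with ha
    obtain ⟨K₀, hK₀⟩ := exists_nat_gt (Real.exp (a / ε))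
    refine ⟨K₀, fun N K hK hKN => ?_⟩
    have hK' : Real.exp (a / ε) ≤ K := by
      have : (K₀ : ℝ) ≤ K := by exact_mod_cast hK
      linarith
    have hKpos : (0 : ℝ) < K := lt_of_lt_of_le (Real.exp_pos _) hK'
    have hlog : a ≤ ε * Real.log K := by
      have h2 := (Real.le_log_iff_exp_le hKpos).2 hK'
      rw [div_le_iff₀ hε] at h2
      linarith
    refine le_trans ?_ hlog
    rw [ha, ← Finset.sum_filter]
    refine Finset.sum_le_sum_of_subset_of_nonneg ?_ fun M _ _ => by positivity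
    intro M hM
    rw [Finset.mem_filter, Finset.mem_Ioc] at hM
    rw [Finset.mem_Icc]
    refine ⟨Nat.succ_le_of_lt (lt_of_le_of_lt (Nat.zero_le _) hM.1.1), ?_⟩
    by_contra hcon
    push Not at hcon
    have := hM₀ M hcon.le r hr t
    linarith [hM.2]
  · obtain ⟨δ, hδ, hw⟩ := hwin d hd
    refine ⟨δ, hδ, fun q hq B hB r hr t ε hε => ?_⟩
    have _ : NeZero q := ⟨hq.ne'⟩
    obtain ⟨h, H, hH, hff⟩ := exists_shifts B d hB
    obtain ⟨K₀, hK₀⟩ := hw q h H hH r hr t ε hε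
    refine ⟨K₀, fun N K hK hKN => ?_⟩
    have h1 : ∀ M, exB B q r t M = ex h H q r t M := by
      intro M
      unfold exB ex
      congr 1
      refine Finset.filter_congr fun n _ => ?_
      rw [hff]
    simp only [h1]
    exact hK₀ N K hK hKN

/-- **One gap for all moduli and all shifts.** -/
theorem uniform_gapU (hwin : ∀ d, 1 ≤ d → WinU d) (l : ℕ) (hl : 1 ≤ l) : ∃ δ : ℝ, 0 < δ ∧ δ < 1 ∧
    ∀ q : ℕ, 1 ≤ q → ∀ B : Finset ℕ, B.card = l → ∀ ε : ℝ, 0 < ε → ∃ K₀ : ℕ, ∀ N K : ℕ, K₀ ≤ K → K ≤ N →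
      ∑ M ∈ (Ioc (N / K) N).filter (fun M : ℕ => ∃ r < q, (1 - δ) * ((M : ℝ) / q) <
        |∑ n ∈ (Icc 1 M).filter (fun n => n % q = r),
          ∏ b ∈ B, (-1 : ℝ) ^ (ArithmeticFunction.cardFactors (n + b))|), 1 / (M : ℝ) ≤
        ε * Real.log K := by
  classical
  obtain ⟨δ', hδ', hw⟩ := winBU hwin l hl
  refine ⟨min δ' (1 / 2), lt_min hδ' (by norm_num), lt_of_le_of_lt (min_le_right _ _) (by norm_num),
    fun q hq B hB ε hε => ?_⟩
  have hqR : (0 : ℝ) < q := by exact_mod_cast hq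
  have hq1 : (1 : ℝ) ≤ q := by exact_mod_cast hq
  have hw' := fun (r : ℕ) (t : ZMod 2) => fun hr : r < q => hw q hq B hB r hr t (ε / (4 * q)) (by positivity)
  choose! K₁ hK₁ using hw'
  obtain ⟨M₁, hM₁⟩ := exists_nat_gt (q / δ')
  set a : ℝ := ∑ M ∈ Icc 1 M₁, 1 / (M : ℝ) with ha
  have ha0 : 0 ≤ a := Finset.sum_nonneg fun M _ => by positivity
  obtain ⟨K₂, hK₂⟩ := exists_nat_gt (Real.exp (2 * a / ε))
  refine ⟨max K₂ ((range q).sup fun r => (Finset.univ : Finset (ZMod 2)).sup fun t => K₁ r t),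
    fun N K hK hKN => ?_⟩
  have hK2 : Real.exp (2 * a / ε) ≤ K := by
    have : (K₂ : ℝ) ≤ K := by exact_mod_cast le_trans (le_max_left _ _) hK
    linarith
  have hK1 : ∀ r < q, ∀ t, K₁ r t ≤ K := by
    intro r hr t
    refine le_trans ?_ (le_trans (le_max_right _ _) hK)
    refine le_trans ?_ (Finset.le_sup (f := fun r => (Finset.univ : Finset (ZMod 2)).sup fun t => K₁ r t)
      (Finset.mem_range.2 hr))
    exact Finset.le_sup (f := fun t => K₁ r t) (Finset.mem_univ t)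
  have hKpos : (0 : ℝ) < K := lt_of_lt_of_le (Real.exp_pos _) hK2
  have hlog : 2 * a ≤ ε * Real.log K := by
    have h2 := (Real.le_log_iff_exp_le hKpos).2 hK2
    rw [div_le_iff₀ hε] at h2
    linarith
  -- pointwise
  have hpt : ∀ M ∈ Ioc (N / K) N, (if ∃ r < q, (1 - min δ' (1 / 2)) * ((M : ℝ) / q) <
        |∑ n ∈ (Icc 1 M).filter (fun n => n % q = r),
          ∏ b ∈ B, (-1 : ℝ) ^ (ArithmeticFunction.cardFactors (n + b))| then 1 / (M : ℝ) else 0) ≤
      (∑ r ∈ range q, ∑ t : ZMod 2, (if (exB B q r t M : ℝ) ≤ δ' * ((M : ℝ) / q) then 1 / (M : ℝ) else 0)) +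
        (if M ≤ M₁ then 1 / (M : ℝ) else 0) := by
    intro M hM
    have hM0 : 1 ≤ M := Nat.succ_le_of_lt (lt_of_le_of_lt (Nat.zero_le _) (Finset.mem_Ioc.1 hM).1)
    have hMR : (0 : ℝ) < M := by exact_mod_cast hM0
    have hterm : ∀ r t, 0 ≤ (if (exB B q r t M : ℝ) ≤ δ' * ((M : ℝ) / q) then 1 / (M : ℝ) else 0) := by
      intro r t
      split_ifs
      · positivity
      · exact le_rfl
    have hsum0 : 0 ≤ ∑ r ∈ range q, ∑ t : ZMod 2,
        (if (exB B q r t M : ℝ) ≤ δ' * ((M : ℝ) / q) then 1 / (M : ℝ) else 0) :=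
      Finset.sum_nonneg fun r _ => Finset.sum_nonneg fun t _ => hterm r t
    have hsm : 0 ≤ (if M ≤ M₁ then 1 / (M : ℝ) else 0) := by
      split_ifs
      · positivity
      · exact le_rfl
    split_ifs with hex hMM hMM
    · linarith
    · rw [add_zero]
      push Not at hMM
      obtain ⟨r, hr, hc⟩ := hex
      have hδM : 1 ≤ δ' * ((M : ℝ) / q) := by
        have h1 : (M₁ : ℝ) ≤ M := by exact_mod_cast hMM.le
        have h2 : q / δ' < M := hM₁.trans_le h1
        rw [div_lt_iff₀ hδ'] at h2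
        rw [← mul_div_assoc, le_div_iff₀ hqR]
        linarith
      have hcl := card_class_le M q r hq
      have hmin : min δ' (1 / 2) * ((M : ℝ) / q) ≤ δ' * ((M : ℝ) / q) :=
        mul_le_mul_of_nonneg_right (min_le_left _ _) (by positivity)
      obtain ⟨t, ht⟩ : ∃ t : ZMod 2, (exB B q r t M : ℝ) ≤ δ' * ((M : ℝ) / q) := by
        rcases le_or_gt 0 (∑ n ∈ (Icc 1 M).filter (fun n => n % q = r),
          ∏ b ∈ B, (-1 : ℝ) ^ (ArithmeticFunction.cardFactors (n + b))) with h0 | h0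
        · refine ⟨0, ?_⟩
          rw [abs_of_nonneg h0, corr_eq B q r M 0] at hc
          have : sg 0 = 1 := by simp [sg]
          rw [this, one_mul] at hc
          linarith
        · refine ⟨1, ?_⟩
          rw [abs_of_neg h0, corr_eq B q r M 1] at hc
          have : sg 1 = -1 := by
            unfold sg
            rw [if_neg (by decide)]
          rw [this] at hc
          linarith
      have h3 : (if (exB B q r t M : ℝ) ≤ δ' * ((M : ℝ) / q) then 1 / (M : ℝ) else 0) ≤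
          ∑ t : ZMod 2, (if (exB B q r t M : ℝ) ≤ δ' * ((M : ℝ) / q) then 1 / (M : ℝ) else 0) :=
        Finset.single_le_sum (f := fun t => if (exB B q r t M : ℝ) ≤ δ' * ((M : ℝ) / q) then 1 / (M : ℝ) else 0)
          (fun t _ => hterm r t) (Finset.mem_univ t)
      have h4 : ∑ t : ZMod 2, (if (exB B q r t M : ℝ) ≤ δ' * ((M : ℝ) / q) then 1 / (M : ℝ) else 0) ≤
          ∑ r ∈ range q, ∑ t : ZMod 2,
            (if (exB B q r t M : ℝ) ≤ δ' * ((M : ℝ) / q) then 1 / (M : ℝ) else 0) :=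
        Finset.single_le_sum (f := fun r => ∑ t : ZMod 2,
            (if (exB B q r t M : ℝ) ≤ δ' * ((M : ℝ) / q) then 1 / (M : ℝ) else 0))
          (fun r _ => Finset.sum_nonneg fun t _ => hterm r t) (Finset.mem_range.2 hr)
      rw [if_pos ht] at h3
      linarith
    · have : 0 ≤ 1 / (M : ℝ) := by positivity
      linarith
    · linarith
  rw [Finset.sum_filter]
  calc ∑ M ∈ Ioc (N / K) N, (if ∃ r < q, (1 - min δ' (1 / 2)) * ((M : ℝ) / q) <
        |∑ n ∈ (Icc 1 M).filter (fun n => n % q = r),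
          ∏ b ∈ B, (-1 : ℝ) ^ (ArithmeticFunction.cardFactors (n + b))| then 1 / (M : ℝ) else 0)
      ≤ ∑ M ∈ Ioc (N / K) N, ((∑ r ∈ range q, ∑ t : ZMod 2,
          (if (exB B q r t M : ℝ) ≤ δ' * ((M : ℝ) / q) then 1 / (M : ℝ) else 0)) +
        (if M ≤ M₁ then 1 / (M : ℝ) else 0)) := Finset.sum_le_sum hpt
    _ = (∑ r ∈ range q, ∑ t : ZMod 2, ∑ M ∈ Ioc (N / K) N,
          (if (exB B q r t M : ℝ) ≤ δ' * ((M : ℝ) / q) then 1 / (M : ℝ) else 0)) +
        ∑ M ∈ Ioc (N / K) N, (if M ≤ M₁ then 1 / (M : ℝ) else 0) := by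
        rw [Finset.sum_add_distrib, Finset.sum_comm]
        congr 1
        refine Finset.sum_congr rfl fun r _ => ?_
        rw [Finset.sum_comm]
    _ ≤ (∑ r ∈ range q, ∑ _t : ZMod 2, ε / (4 * q) * Real.log K) + a := by
        refine add_le_add (Finset.sum_le_sum fun r hr => Finset.sum_le_sum fun t _ => ?_) ?_
        · have hr' := Finset.mem_range.1 hr
          exact hK₁ r t hr' N K (hK1 r hr' t) hKN
        · rw [ha, ← Finset.sum_filter]
          refine Finset.sum_le_sum_of_subset_of_nonneg ?_ fun M _ _ => by positivity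
          intro M hM
          rw [Finset.mem_filter, Finset.mem_Ioc] at hM
          rw [Finset.mem_Icc]
          exact ⟨Nat.succ_le_of_lt (lt_of_le_of_lt (Nat.zero_le _) hM.1.1), hM.2⟩
    _ ≤ ε * Real.log K := by
        rw [Finset.sum_const, Finset.card_range, Finset.sum_const, Finset.card_univ, ZMod.card,
          nsmul_eq_mul, nsmul_eq_mul]
        have h1 : (q : ℝ) * (((2 : ℕ) : ℝ) * (ε / (4 * q) * Real.log K)) = ε * Real.log K / 2 := by
          push_cast
          field_simp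
          ring
        rw [h1]
        linarith

end Pool.Agent.Helper8.UGU
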