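import Pool.Agent.Helper8.UGU.Count
import Pool.Agent.Helper8.UGU.Final
import Pool.Agent.Helper98.UGU.TuplesU
import Pool.Agent.Helper50.UGU.CubesH
import Pool.Agent.Helper68.UGU.Core
import Pool.Agent.Helper68.UGU.NoGap
import Pool.Agent.Helper21.UGU.Window

/-!
# Project UGU: assembly

One gap `δ`, which depends on the number `l` of shifts only, for all sets of `l` shifts and all moduli.
-/

set_option autoImplicit false

namespace Pool.Agent.Helper8.UGU

open Finset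

theorem winU (d : ℕ) (hd : 1 ≤ d) : WinU d :=
  Helper21.UGU.windowU d (Helper68.UGU.nogap_of d (Helper68.UGU.core_of d hd
    (UGB.cubesU_of_tuples (fun D m => _root_.UGU.tuplesU_of count_class D m) d)))

theorem uniform_gap (l : ℕ) (hl : 1 ≤ l) : ∃ δ : ℝ, 0 < δ ∧ δ < 1 ∧
    ∀ q : ℕ, 1 ≤ q → ∀ B : Finset ℕ, B.card = l → ∀ ε : ℝ, 0 < ε → ∃ K₀ : ℕ, ∀ N K : ℕ, K₀ ≤ K → K ≤ N →
      ∑ M ∈ (Ioc (N / K) N).filter (fun M : ℕ => ∃ r < q, (1 - δ) * ((M : ℝ) / q) <
        |∑ n ∈ (Icc 1 M).filter (fun n => n % q = r),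
          ∏ b ∈ B, (-1 : ℝ) ^ (ArithmeticFunction.cardFactors (n + b))|), 1 / (M : ℝ) ≤
        ε * Real.log K :=
  uniform_gapU winU l hl

end Pool.Agent.Helper8.UGU
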