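import Pool.Agent.Helper83.HLC.Defs
import Pool.Agent.Helper13.Om.BT

/-!
# UGU-1: upper bound sieve for tuples of primes in a residue class

As `count_tuples` of `Helper83/HLC/Count.lean`, for `Q (y + i) + r` in place of `n + i`: the sieving primes `q` do not divide `Q`, the
excluded residues of `y` modulo `q` are those of `- i - c q`, `c q = r / Q` modulo `q`; the missing factors cost at most
`∏_{q ∣ Q} (1 - 1 / q)⁻¹ = Q / φ(Q)` for each element of the tuple.
-/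

set_option autoImplicit false

namespace Pool.Agent.Helper8.UGU

open Finset
open Pool.Agent.Helper83.HLC (W one_le_W)

private theorem res_inj {q r t : ℕ} (hr : r < q) (ht : t < q) (h : (q - r) % q = (q - t) % q) :
    r = t := by
  rcases Nat.eq_zero_or_pos r with h0 | h0
  · rcases Nat.eq_zero_or_pos t with h1 | h1
    · omega
    · exfalso
      rw [h0, Nat.sub_zero, Nat.mod_self, Nat.mod_eq_of_lt (by omega)] at h
      omega
  · rcases Nat.eq_zero_or_pos t with h1 | h1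
    · exfalso
      rw [h1, Nat.sub_zero, Nat.mod_self, Nat.mod_eq_of_lt (by omega)] at h
      omega
    · rw [Nat.mod_eq_of_lt (by omega), Nat.mod_eq_of_lt (by omega)] at h
      omega

private theorem dvd_dist {q i j : ℕ} (h : i % q = j % q) : q ∣ Nat.dist i j := by
  rcases le_total i j with hij | hij
  · rw [Nat.dist_eq_sub_of_le hij]
    exact (Nat.modEq_iff_dvd' hij).1 h
  · rw [Nat.dist_eq_sub_of_le_right hij]
    exact (Nat.modEq_iff_dvd' hij).1 h.symm

private theorem one_le_ite (q m : ℕ) (d : ℕ) :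
    (1 : ℝ) ≤ if q ∣ d then (1 + 2 / (q : ℝ)) ^ m else 1 := by
  split_ifs
  · have : (0 : ℝ) ≤ 2 / (q : ℝ) := by positivity
    exact one_le_pow₀ (by linarith)
  · exact le_rfl

private theorem factor_bound {q m : ℕ} (hq : q.Prime) (c : ℕ) (s : Finset ℕ)
    (hs : s.card = m) :
    1 - ((s.image (fun i => (q - (i + c) % q) % q)).card : ℝ) / q ≤
      (1 - 1 / (q : ℝ)) ^ m *
        ∏ x ∈ s.offDiag, (if q ∣ Nat.dist x.1 x.2 then (1 + 2 / (q : ℝ)) ^ m else 1) := by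
  classical
  have hq2 : (2 : ℝ) ≤ q := by exact_mod_cast hq.two_le
  have hq0 : (0 : ℝ) < q := by linarith
  have hinv : 1 / (q : ℝ) ≤ 1 / 2 := one_div_le_one_div_of_le (by norm_num) hq2
  have hinv0 : 0 < 1 / (q : ℝ) := by positivity
  by_cases h : ∃ x ∈ s.offDiag, q ∣ Nat.dist x.1 x.2
  · obtain ⟨x0, hx0, hd⟩ := h
    have h1 : 1 - ((s.image (fun i => (q - (i + c) % q) % q)).card : ℝ) / q ≤ 1 := by
      have : 0 ≤ ((s.image (fun i => (q - (i + c) % q) % q)).card : ℝ) / q := by positivity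
      linarith
    have h2 : (1 : ℝ) ≤ ((1 - 1 / (q : ℝ)) * (1 + 2 / (q : ℝ))) ^ m := by
      refine one_le_pow₀ ?_
      have e1 : (1 - 1 / (q : ℝ)) * (1 + 2 / (q : ℝ)) =
          1 + (1 / (q : ℝ)) * (1 - 2 * (1 / (q : ℝ))) := by ring
      rw [e1]
      have : 0 ≤ (1 / (q : ℝ)) * (1 - 2 * (1 / (q : ℝ))) :=
        mul_nonneg hinv0.le (by linarith)
      linarith
    have h3 : (1 + 2 / (q : ℝ)) ^ m ≤
        ∏ x ∈ s.offDiag, (if q ∣ Nat.dist x.1 x.2 then (1 + 2 / (q : ℝ)) ^ m else 1) := by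
      rw [← Finset.mul_prod_erase _ _ hx0, if_pos hd]
      have h4 : (1 : ℝ) ≤ ∏ x ∈ s.offDiag.erase x0,
          (if q ∣ Nat.dist x.1 x.2 then (1 + 2 / (q : ℝ)) ^ m else 1) := by
        calc (1 : ℝ) = ∏ x ∈ s.offDiag.erase x0, (1 : ℝ) := by simp
          _ ≤ _ := Finset.prod_le_prod (fun _ _ => zero_le_one)
            fun x _ => one_le_ite q m _
      have h5 : (0 : ℝ) ≤ (1 + 2 / (q : ℝ)) ^ m := by positivity
      exact le_mul_of_one_le_right h5 h4
    have h6 : 0 ≤ (1 - 1 / (q : ℝ)) ^ m := pow_nonneg (by linarith) m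
    calc 1 - ((s.image (fun i => (q - (i + c) % q) % q)).card : ℝ) / q ≤ 1 := h1
      _ ≤ ((1 - 1 / (q : ℝ)) * (1 + 2 / (q : ℝ))) ^ m := h2
      _ = (1 - 1 / (q : ℝ)) ^ m * (1 + 2 / (q : ℝ)) ^ m := mul_pow _ _ _
      _ ≤ _ := mul_le_mul_of_nonneg_left h3 h6
  · push Not at h
    have hcard : (s.image (fun i => (q - (i + c) % q) % q)).card = m := by
      rw [Finset.card_image_of_injOn, hs]
      intro i hi j hj hij
      by_contra hne
      have h1 : (i + c) % q = (j + c) % q :=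
        res_inj (Nat.mod_lt _ hq.pos) (Nat.mod_lt _ hq.pos) hij
      have h1' := dvd_dist h1
      rw [Nat.dist_add_add_right] at h1'
      exact h (i, j) (Finset.mem_offDiag.2 ⟨hi, hj, hne⟩) h1'
    have hprod : ∏ x ∈ s.offDiag,
        (if q ∣ Nat.dist x.1 x.2 then (1 + 2 / (q : ℝ)) ^ m else 1) = 1 := by
      refine Finset.prod_eq_one fun x hx => ?_
      rw [if_neg (h x hx)]
    rw [hcard, hprod, mul_one]
    have h1 := one_add_mul_le_pow (a := -(1 / (q : ℝ))) (by linarith) m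
    have e1 : 1 - (m : ℝ) / q = 1 + (m : ℝ) * -(1 / (q : ℝ)) := by ring
    have e2 : (1 - 1 / (q : ℝ)) = 1 + -(1 / (q : ℝ)) := by ring
    rw [e1, e2]
    exact h1

private theorem W_bound (P : Finset ℕ) (hP : ∀ q ∈ P, q.Prime) (m d : ℕ) (hd : d ≠ 0) :
    ∏ q ∈ P, (if q ∣ d then (1 + 2 / (q : ℝ)) ^ m else 1) ≤ W d ^ m := by
  classical
  rw [← Finset.prod_filter, Finset.prod_pow]
  refine pow_le_pow_left₀ (Finset.prod_nonneg fun q _ => by positivity) ?_ m
  have hsub : P.filter (fun q => q ∣ d) ⊆ d.primeFactors := by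
    intro q hq
    rw [Finset.mem_filter] at hq
    exact Nat.mem_primeFactors.2 ⟨hP q hq.1, hq.2, hd⟩
  unfold W
  rw [← Finset.prod_sdiff hsub]
  have h1 : (1 : ℝ) ≤ ∏ q ∈ d.primeFactors \ P.filter (fun q => q ∣ d), (1 + 2 / (q : ℝ)) := by
    calc (1 : ℝ) = ∏ q ∈ d.primeFactors \ P.filter (fun q => q ∣ d), (1 : ℝ) := by simp
      _ ≤ _ := Finset.prod_le_prod (fun _ _ => zero_le_one) fun q _ => by
        have : (0 : ℝ) ≤ 2 / (q : ℝ) := by positivity
        linarith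
  have h2 : (0 : ℝ) ≤ ∏ q ∈ P.filter (fun q => q ∣ d), (1 + 2 / (q : ℝ)) :=
    Finset.prod_nonneg fun q _ => by positivity
  exact le_mul_of_one_le_left h2 h1

private theorem prod_bound (P : Finset ℕ) (hP : ∀ q ∈ P, q.Prime) (m : ℕ)
    (hm : ∀ q ∈ P, m < q) (c : ℕ → ℕ) (s : Finset ℕ) (hs : s.card = m) :
    ∏ q ∈ P, (1 - ((s.image (fun i => (q - (i + c q) % q) % q)).card : ℝ) / q) ≤
      (∏ q ∈ P, (1 - 1 / (q : ℝ))) ^ m * ∏ x ∈ s.offDiag, W (Nat.dist x.1 x.2) ^ m := by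
  classical
  have h1 : ∏ q ∈ P, (1 - ((s.image (fun i => (q - (i + c q) % q) % q)).card : ℝ) / q) ≤
      ∏ q ∈ P, ((1 - 1 / (q : ℝ)) ^ m *
        ∏ x ∈ s.offDiag, (if q ∣ Nat.dist x.1 x.2 then (1 + 2 / (q : ℝ)) ^ m else 1)) := by
    refine Finset.prod_le_prod (fun q hq => ?_) fun q hq => factor_bound (hP q hq) (c q) s hs
    have hc : ((s.image (fun i => (q - (i + c q) % q) % q)).card : ℝ) ≤ q := by
      have h2 : (s.image (fun i => (q - (i + c q) % q) % q)).card ≤ q :=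
        (Finset.card_image_le.trans (le_of_eq hs)).trans (hm q hq).le
      exact_mod_cast h2
    have hq0 : (0 : ℝ) < q := by exact_mod_cast (hP q hq).pos
    have : ((s.image (fun i => (q - (i + c q) % q) % q)).card : ℝ) / q ≤ 1 := by
      rw [div_le_one hq0]
      exact hc
    linarith
  refine h1.trans ?_
  rw [Finset.prod_mul_distrib, Finset.prod_pow, Finset.prod_comm]
  have h0 : 0 ≤ (∏ q ∈ P, (1 - 1 / (q : ℝ))) ^ m := by
    refine pow_nonneg (Finset.prod_nonneg fun q hq => ?_) m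
    have hq2 : (2 : ℝ) ≤ q := by exact_mod_cast (hP q hq).two_le
    have : 1 / (q : ℝ) ≤ 1 / 2 := one_div_le_one_div_of_le (by norm_num) hq2
    linarith
  refine mul_le_mul_of_nonneg_left ?_ h0
  refine Finset.prod_le_prod (fun x _ => ?_) fun x hx => ?_
  · exact Finset.prod_nonneg fun q _ => zero_le_one.trans (one_le_ite q m _)
  · refine W_bound P hP m _ ?_
    rw [Finset.mem_offDiag] at hx
    intro h
    exact hx.2.2 (Nat.eq_of_dist_eq_zero h)

private theorem small_primes (m N : ℕ) :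
    ∏ q ∈ N.primesBelow.filter (fun q => m < q), (1 - 1 / (q : ℝ)) ≤
      2 ^ m * ∏ q ∈ N.primesBelow, (1 - 1 / (q : ℝ)) := by
  classical
  have hfac : ∀ q ∈ N.primesBelow, (1 : ℝ) / 2 ≤ 1 - 1 / (q : ℝ) := by
    intro q hq
    have hqp := Nat.prime_of_mem_primesBelow hq
    have hq2 : (2 : ℝ) ≤ q := by exact_mod_cast hqp.two_le
    have : 1 / (q : ℝ) ≤ 1 / 2 := one_div_le_one_div_of_le (by norm_num) hq2
    linarith
  rw [← Finset.prod_filter_mul_prod_filter_not N.primesBelow (fun q => m < q)]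
  have h1 : (1 / 2 : ℝ) ^ m ≤
      ∏ q ∈ N.primesBelow.filter (fun q => ¬ m < q), (1 - 1 / (q : ℝ)) := by
    have hc : (N.primesBelow.filter (fun q => ¬ m < q)).card ≤ m := by
      have hsub : N.primesBelow.filter (fun q => ¬ m < q) ⊆ Icc 1 m := by
        intro q hq
        rw [Finset.mem_filter] at hq
        have hqp := Nat.prime_of_mem_primesBelow hq.1
        rw [Finset.mem_Icc]
        exact ⟨hqp.pos, not_lt.1 hq.2⟩
      have := Finset.card_le_card hsub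
      rwa [Nat.card_Icc, Nat.add_sub_cancel] at this
    calc (1 / 2 : ℝ) ^ m ≤ (1 / 2 : ℝ) ^ (N.primesBelow.filter (fun q => ¬ m < q)).card :=
          pow_le_pow_of_le_one (by norm_num) (by norm_num) hc
      _ = ∏ q ∈ N.primesBelow.filter (fun q => ¬ m < q), (1 / 2 : ℝ) := by
          rw [Finset.prod_const]
      _ ≤ _ := Finset.prod_le_prod (fun _ _ => by norm_num)
            fun q hq => hfac q (Finset.mem_filter.1 hq).1
  have h2 : 0 ≤ ∏ q ∈ N.primesBelow.filter (fun q => m < q), (1 - 1 / (q : ℝ)) :=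
    Finset.prod_nonneg fun q hq => by linarith [hfac q (Finset.mem_filter.1 hq).1]
  have h3 : (2 : ℝ) ^ m * (1 / 2 : ℝ) ^ m = 1 := by
    rw [← mul_pow]
    norm_num
  calc ∏ q ∈ N.primesBelow.filter (fun q => m < q), (1 - 1 / (q : ℝ))
      = (2 : ℝ) ^ m * ((∏ q ∈ N.primesBelow.filter (fun q => m < q), (1 - 1 / (q : ℝ))) *
          (1 / 2 : ℝ) ^ m) := by
        rw [mul_comm (∏ q ∈ N.primesBelow.filter (fun q => m < q), (1 - 1 / (q : ℝ))),
          ← mul_assoc, h3, one_mul]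
    _ ≤ _ := mul_le_mul_of_nonneg_left (mul_le_mul_of_nonneg_left h1 h2) (by positivity)

private theorem log_pow_le (m X : ℕ) (hX : 2 ≤ X) :
    (Real.log X) ^ m ≤ (2 * (m : ℝ)) ^ m * Real.sqrt X := by
  have hX1 : (1 : ℝ) ≤ X := by exact_mod_cast (by omega : 1 ≤ X)
  rcases Nat.eq_zero_or_pos m with h0 | h0
  · subst h0
    rw [pow_zero, pow_zero, one_mul]
    exact Real.one_le_sqrt.2 hX1
  · have hm : (0 : ℝ) < m := by exact_mod_cast h0
    have h1 := Real.log_le_rpow_div (x := (X : ℝ)) (ε := 1 / (2 * (m : ℝ))) (by positivity)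
      (by positivity)
    have hl : 0 ≤ Real.log X := Real.log_nonneg hX1
    have h2 := pow_le_pow_left₀ hl h1 m
    refine h2.trans (le_of_eq ?_)
    rw [div_pow, ← Real.rpow_natCast ((X : ℝ) ^ (1 / (2 * (m : ℝ)))) m,
      ← Real.rpow_mul (by positivity)]
    have e1 : 1 / (2 * (m : ℝ)) * (m : ℝ) = 1 / 2 := by field_simp
    rw [e1, Real.sqrt_eq_rpow]
    have e2 : (1 / (2 * (m : ℝ))) ^ m = ((2 * (m : ℝ)) ^ m)⁻¹ := by
      rw [one_div, inv_pow]
    rw [e2, div_inv_eq_mul, mul_comm]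

/-- the factors at the primes dividing `Q` -/
private theorem tot_bound (Q : ℕ) (hQ : 0 < Q) (P : Finset ℕ) (hP : ∀ q ∈ P, q.Prime) :
    ∏ q ∈ P.filter (fun q => ¬ q ∣ Q), (1 - 1 / (q : ℝ)) ≤
      (∏ q ∈ P, (1 - 1 / (q : ℝ))) * ((Q : ℝ) / (Q.totient : ℝ)) := by
  classical
  have hfac : ∀ q : ℕ, q.Prime → (1 : ℝ) / 2 ≤ 1 - 1 / (q : ℝ) := by
    intro q hqp
    have hq2 : (2 : ℝ) ≤ q := by exact_mod_cast hqp.two_le
    have : 1 / (q : ℝ) ≤ 1 / 2 := one_div_le_one_div_of_le (by norm_num) hq2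
    linarith
  have hle : ∀ q : ℕ, 1 - 1 / (q : ℝ) ≤ 1 := by
    intro q
    have : (0 : ℝ) ≤ 1 / (q : ℝ) := by positivity
    linarith
  have hQ0 : (0 : ℝ) < Q := by exact_mod_cast hQ
  have htot : ((Q.totient : ℕ) : ℝ) = Q * ∏ p ∈ Q.primeFactors, (1 - 1 / (p : ℝ)) := by
    have h := Nat.totient_eq_mul_prod_factors Q
    have h' := congrArg (fun x : ℚ => (x : ℝ)) h
    push_cast at h'
    rw [h']
    congr 1
    refine Finset.prod_congr rfl fun p _ => ?_
    rw [one_div]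
  have hprodpos : 0 < ∏ p ∈ Q.primeFactors, (1 - 1 / (p : ℝ)) :=
    Finset.prod_pos fun p hp => by linarith [hfac p (Nat.prime_of_mem_primeFactors hp)]
  have hratio : (Q : ℝ) / (Q.totient : ℝ) = (∏ p ∈ Q.primeFactors, (1 - 1 / (p : ℝ)))⁻¹ := by
    rw [htot]
    field_simp
  rw [hratio]
  have h1 : ∏ p ∈ Q.primeFactors, (1 - 1 / (p : ℝ)) ≤
      ∏ q ∈ P.filter (fun q => q ∣ Q), (1 - 1 / (q : ℝ)) := by
    have hsub : P.filter (fun q => q ∣ Q) ⊆ Q.primeFactors := by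
      intro q hq
      rw [Finset.mem_filter] at hq
      exact Nat.mem_primeFactors.2 ⟨hP q hq.1, hq.2, hQ.ne'⟩
    rw [← Finset.prod_sdiff hsub]
    have h2 : ∏ q ∈ Q.primeFactors \ P.filter (fun q => q ∣ Q), (1 - 1 / (q : ℝ)) ≤ 1 := by
      refine Finset.prod_le_one (fun q hq => ?_) fun q _ => hle q
      linarith [hfac q (Nat.prime_of_mem_primeFactors (Finset.mem_sdiff.1 hq).1)]
    have h3 : 0 ≤ ∏ q ∈ P.filter (fun q => q ∣ Q), (1 - 1 / (q : ℝ)) :=
      Finset.prod_nonneg fun q hq => by linarith [hfac q (hP q (Finset.mem_filter.1 hq).1)]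
    exact mul_le_of_le_one_left h3 h2
  have h4 : 0 ≤ ∏ q ∈ P.filter (fun q => ¬ q ∣ Q), (1 - 1 / (q : ℝ)) :=
    Finset.prod_nonneg fun q hq => by linarith [hfac q (hP q (Finset.mem_filter.1 hq).1)]
  rw [← Finset.prod_filter_mul_prod_filter_not P (fun q => q ∣ Q), ← div_eq_mul_inv,
    le_div_iff₀ hprodpos, mul_comm]
  exact mul_le_mul_of_nonneg_right h1 h4

/-- U1. Upper bound sieve for tuples of primes in a residue class, uniform in the modulus. -/
theorem count_class (m : ℕ) : ∃ C : ℝ, 0 < C ∧ ∀ Q : ℕ, 0 < Q → ∀ r : ℕ, ∀ X : ℕ, 2 ≤ X →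
    ∀ s : Finset ℕ, s.card = m →
    ((((Icc 1 X).filter (fun y => ∀ i ∈ s, (Q * (y + i) + r).Prime)).card : ℕ) : ℝ) ≤
      C * ((Q : ℝ) / (Q.totient : ℝ)) ^ m * (X / (Real.log X) ^ m) *
        ∏ x ∈ s.offDiag, W (Nat.dist x.1 x.2) ^ m := by
  classical
  refine ⟨(80 * 2 ^ m) ^ m * Real.exp (Helper13.Om.Kt m) + 3 * (2 * (m : ℝ)) ^ m, by positivity,
    ?_⟩
  intro Q hQ r X hX s hs
  set κ : ℝ := (Q : ℝ) / (Q.totient : ℝ) with hκ
  have hκ1 : 1 ≤ κ := by
    rw [hκ, le_div_iff₀ (by exact_mod_cast Nat.totient_pos.2 hQ), one_mul]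
    exact_mod_cast Nat.totient_le Q
  have hκm : 1 ≤ κ ^ m := one_le_pow₀ hκ1
  have hX0 : (0 : ℝ) < X := by exact_mod_cast (by omega : 0 < X)
  have hL : 0 < Real.log X := Real.log_pos (by exact_mod_cast hX)
  set E : ℕ := Nat.log 2 X / 80 with hE
  set N : ℕ := 2 ^ (E + 1) with hN
  set P1 : Finset ℕ := N.primesBelow.filter (fun q => m < q) with hP1'
  have hP1p : ∀ q ∈ P1, q.Prime := fun q hq =>
    Nat.prime_of_mem_primesBelow (Finset.mem_filter.1 hq).1
  set P : Finset ℕ := P1.filter (fun q => ¬ q ∣ Q) with hP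
  have hPp : ∀ q ∈ P, q.Prime := fun q hq => hP1p q (Finset.mem_filter.1 hq).1
  have hPN : ∀ q ∈ P, q < N := fun q hq =>
    Nat.lt_of_mem_primesBelow (Finset.mem_filter.1 (Finset.mem_filter.1 hq).1).1
  have hPm : ∀ q ∈ P, m < q := fun q hq =>
    (Finset.mem_filter.1 (Finset.mem_filter.1 hq).1).2
  have hPQ : ∀ q ∈ P, ¬ q ∣ Q := fun q hq => (Finset.mem_filter.1 hq).2
  -- `Q * c q = r` modulo `q`
  have hc : ∀ q : ℕ, ∃ c : ℕ, q ∈ P → (Q * c) % q = r % q := by
    intro q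
    by_cases hq : q ∈ P
    · have hqp := hPp q hq
      have hco : Q.Coprime q := ((Nat.Prime.coprime_iff_not_dvd hqp).2 (hPQ q hq)).symm
      have : Fact q.Prime := ⟨hqp⟩
      refine ⟨((Q : ZMod q)⁻¹ * (r : ZMod q)).val, fun _ => ?_⟩
      have hQ0 : (Q : ZMod q) ≠ 0 := by
        rw [Ne, ZMod.natCast_eq_zero_iff]
        exact hPQ q hq
      have h1 : ((Q * ((Q : ZMod q)⁻¹ * (r : ZMod q)).val : ℕ) : ZMod q) = ((r : ℕ) : ZMod q) := by
        push_cast
        rw [ZMod.natCast_val, ZMod.cast_id, ← mul_assoc, mul_inv_cancel₀ hQ0, one_mul]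
      exact (ZMod.natCast_eq_natCast_iff' _ _ _).1 h1
    · exact ⟨0, fun h => absurd h hq⟩
  choose c hc using hc
  set V : ℝ := ∏ x ∈ s.offDiag, W (Nat.dist x.1 x.2) ^ m with hV
  have hV1 : 1 ≤ V := by
    rw [hV]
    calc (1 : ℝ) = ∏ x ∈ s.offDiag, (1 : ℝ) := by simp
      _ ≤ _ := Finset.prod_le_prod (fun _ _ => zero_le_one)
        fun x _ => one_le_pow₀ (one_le_W _)
  -- the sieve
  have hsieve := Helper13.Om.sieve_upper P ∅ (Finset.disjoint_empty_left _) hPp (by simp) m hPm E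
    (by
      intro q hq
      have h1 : Nat.log 2 q < E + 1 := Nat.log_lt_of_lt_pow (hPp q hq).ne_zero (hPN q hq)
      omega)
    (fun q => s.image (fun i => (q - (i + c q) % q) % q))
    (by
      intro q hq
      refine ⟨?_, Finset.card_image_le.trans (le_of_eq hs)⟩
      intro x hx
      obtain ⟨i, _, rfl⟩ := Finset.mem_image.1 hx
      exact Finset.mem_range.2 (Nat.mod_lt _ (hPp q hq).pos))
    (by simp) 1 le_rfl X
  rw [Finset.prod_empty, Finset.prod_empty, one_mul, one_mul] at hsieve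
  -- the counting
  have hsub : (Icc 1 X).filter (fun n => ∀ i ∈ s, (Q * (n + i) + r).Prime) ⊆
      ((Icc 1 X).filter (fun n => (∀ q ∈ (∅ : Finset ℕ),
        n % q ∈ s.image (fun i => (q - (i + c q) % q) % q)) ∧
        ∀ q ∈ P, n % q ∉ s.image (fun i => (q - (i + c q) % q) % q))) ∪ Icc 1 N := by
    intro n hn
    rw [Finset.mem_filter] at hn
    rw [Finset.mem_union]
    by_cases hnN : n ≤ N
    · right
      rw [Finset.mem_Icc] at hn ⊢
      exact ⟨hn.1.1, hnN⟩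
    · left
      rw [Finset.mem_filter]
      refine ⟨hn.1, by simp, ?_⟩
      intro q hq hmem
      obtain ⟨i, hi, hii⟩ := Finset.mem_image.1 hmem
      have hq0 := (hPp q hq).pos
      have hdvd1 : q ∣ n + (i + c q) := by
        apply Nat.dvd_of_mod_eq_zero
        rw [Nat.add_mod, ← hii, Nat.mod_add_mod,
          Nat.sub_add_cancel (Nat.mod_lt _ hq0).le, Nat.mod_self]
      have hdvd : q ∣ Q * (n + i) + r := by
        have e1 : (Q * (n + i) + r) % q = (Q * (n + (i + c q))) % q := by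
          have e2 : Q * (n + (i + c q)) = Q * (n + i) + Q * c q := by ring
          rw [e2]
          exact (Nat.ModEq.add_left (Q * (n + i)) (hc q hq)).symm
        apply Nat.dvd_of_mod_eq_zero
        rw [e1]
        exact Nat.mod_eq_zero_of_dvd (hdvd1.mul_left Q)
      have h3 := (Nat.prime_dvd_prime_iff_eq (hPp q hq) (hn.2 i hi)).1 hdvd
      have h4 := hPN q hq
      have h5 : n + i ≤ Q * (n + i) := Nat.le_mul_of_pos_left _ hQ
      omega
  have hcard : ((((Icc 1 X).filter (fun n => ∀ i ∈ s, (Q * (n + i) + r).Prime)).card : ℕ) : ℝ) ≤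
      ((((Icc 1 X).filter (fun n => (∀ q ∈ (∅ : Finset ℕ),
        n % q ∈ s.image (fun i => (q - (i + c q) % q) % q)) ∧
        ∀ q ∈ P, n % q ∉ s.image (fun i => (q - (i + c q) % q) % q))).card : ℕ) : ℝ) + (N : ℝ) := by
    have h1 := (Finset.card_le_card hsub).trans (Finset.card_union_le _ _)
    rw [Nat.card_Icc, Nat.add_sub_cancel] at h1
    exact_mod_cast h1
  -- the main term
  have hprod := prod_bound P hPp m hPm c s hs
  have hlogN : Real.log X / 80 ≤ Real.log ((N : ℕ) : ℝ) := by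
    rw [hN]
    push_cast
    rw [Real.log_pow]
    have h1 : X < 2 ^ (Nat.log 2 X + 1) := Nat.lt_pow_succ_log_self (by norm_num) X
    have h2 : Real.log X ≤ ((Nat.log 2 X + 1 : ℕ) : ℝ) * Real.log 2 := by
      rw [← Real.log_pow]
      refine Real.log_le_log hX0 ?_
      exact_mod_cast h1.le
    have h3 : Nat.log 2 X + 1 ≤ 80 * (E + 1) := by omega
    have h4 : ((Nat.log 2 X + 1 : ℕ) : ℝ) ≤ 80 * ((E : ℝ) + 1) := by exact_mod_cast h3
    have h5 : 0 < Real.log 2 := Real.log_pos (by norm_num)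
    have h6 := mul_le_mul_of_nonneg_right h4 h5.le
    push_cast at h2 h6 ⊢
    linarith
  have hlogNpos : 0 < Real.log ((N : ℕ) : ℝ) := by linarith [div_pos hL (by norm_num : (0 : ℝ) < 80)]
  have hmer := Helper13.Om.mertens_prod N (by
    rw [hN]
    calc 2 = 2 ^ 1 := by norm_num
      _ ≤ 2 ^ (E + 1) := Nat.pow_le_pow_right (by norm_num) (by omega))
  have hP2 : ∏ q ∈ P1, (1 - 1 / (q : ℝ)) ≤ 80 * 2 ^ m / Real.log X := by
    refine (small_primes m N).trans ?_
    have h1 : 1 / Real.log ((N : ℕ) : ℝ) ≤ 80 / Real.log X := by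
      rw [div_le_div_iff₀ hlogNpos hL]
      linarith
    calc (2 : ℝ) ^ m * ∏ q ∈ N.primesBelow, (1 - 1 / (q : ℝ))
        ≤ 2 ^ m * (80 / Real.log X) :=
          mul_le_mul_of_nonneg_left (hmer.trans h1) (by positivity)
      _ = 80 * 2 ^ m / Real.log X := by ring
  have hP1 : ∏ q ∈ P, (1 - 1 / (q : ℝ)) ≤ 80 * 2 ^ m / Real.log X * κ :=
    (tot_bound Q hQ P1 hP1p).trans (mul_le_mul_of_nonneg_right hP2 (by linarith))
  have hP0 : 0 ≤ ∏ q ∈ P, (1 - 1 / (q : ℝ)) := by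
    refine Finset.prod_nonneg fun q hq => ?_
    have hq2 : (2 : ℝ) ≤ q := by exact_mod_cast (hPp q hq).two_le
    have : 1 / (q : ℝ) ≤ 1 / 2 := one_div_le_one_div_of_le (by norm_num) hq2
    linarith
  have hmain : (X : ℝ) * (∏ q ∈ P, (1 - ((s.image (fun i => (q - (i + c q) % q) % q)).card : ℝ) / q)) *
      Real.exp (Helper13.Om.Kt m / ((1 : ℕ) : ℝ)) ≤
      ((80 * 2 ^ m) ^ m * Real.exp (Helper13.Om.Kt m)) * κ ^ m * (X / (Real.log X) ^ m) * V := by
    have h1 : (∏ q ∈ P, (1 - 1 / (q : ℝ))) ^ m ≤ (80 * 2 ^ m / Real.log X * κ) ^ m :=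
      pow_le_pow_left₀ hP0 hP1 m
    have h2 : ∏ q ∈ P, (1 - ((s.image (fun i => (q - (i + c q) % q) % q)).card : ℝ) / q) ≤
        (80 * 2 ^ m / Real.log X * κ) ^ m * V :=
      hprod.trans (mul_le_mul_of_nonneg_right h1 (by linarith))
    have h3 : Real.exp (Helper13.Om.Kt m / ((1 : ℕ) : ℝ)) = Real.exp (Helper13.Om.Kt m) := by
      rw [Nat.cast_one, div_one]
    rw [h3]
    have h4 := mul_le_mul_of_nonneg_left h2 hX0.le
    have h5 := mul_le_mul_of_nonneg_right h4 (Real.exp_pos (Helper13.Om.Kt m)).le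
    refine h5.trans (le_of_eq ?_)
    rw [mul_pow, div_pow]
    ring
  -- the error terms
  have hXs : (2 : ℝ) ^ (40 * E) ≤ Real.sqrt X := by
    apply Real.le_sqrt_of_sq_le
    rw [← pow_mul]
    have h1 : 2 ^ Nat.log 2 X ≤ X := Nat.pow_log_le_self 2 (by omega)
    have h2 : 2 ^ (40 * E * 2) ≤ X :=
      (Nat.pow_le_pow_right (by norm_num) (by omega)).trans h1
    exact_mod_cast h2
  have hNle : (N : ℝ) ≤ 2 * Real.sqrt X := by
    rw [hN]
    push_cast
    rw [pow_succ]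
    have h1 : (2 : ℝ) ^ E ≤ 2 ^ (40 * E) := pow_le_pow_right₀ (by norm_num) (by omega)
    linarith
  have herr : Real.sqrt X ≤ (2 * (m : ℝ)) ^ m * X / (Real.log X) ^ m := by
    rw [le_div_iff₀ (pow_pos hL m)]
    have h1 := log_pow_le m X hX
    have h2 : Real.sqrt X * Real.sqrt X = X := Real.mul_self_sqrt hX0.le
    calc Real.sqrt X * (Real.log X) ^ m ≤ Real.sqrt X * ((2 * (m : ℝ)) ^ m * Real.sqrt X) :=
          mul_le_mul_of_nonneg_left h1 (Real.sqrt_nonneg _)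
      _ = (2 * (m : ℝ)) ^ m * (Real.sqrt X * Real.sqrt X) := by ring
      _ = _ := by rw [h2]
  have herr2 : 3 * Real.sqrt X ≤ (3 * (2 * (m : ℝ)) ^ m) * κ ^ m * (X / (Real.log X) ^ m) * V := by
    have h1 : 0 ≤ (3 * (2 * (m : ℝ)) ^ m) * X / (Real.log X) ^ m := by positivity
    calc 3 * Real.sqrt X ≤ 3 * ((2 * (m : ℝ)) ^ m * X / (Real.log X) ^ m) := by linarith
      _ = (3 * (2 * (m : ℝ)) ^ m) * X / (Real.log X) ^ m := by ring
      _ ≤ (3 * (2 * (m : ℝ)) ^ m) * X / (Real.log X) ^ m * κ ^ m := le_mul_of_one_le_right h1 hκm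
      _ ≤ (3 * (2 * (m : ℝ)) ^ m) * X / (Real.log X) ^ m * κ ^ m * V :=
          le_mul_of_one_le_right (by positivity) hV1
      _ = _ := by ring
  have h40 : 20 * E * (1 + 1) = 40 * E := by ring
  rw [h40] at hsieve
  have hfin : ((80 * 2 ^ m) ^ m * Real.exp (Helper13.Om.Kt m) + 3 * (2 * (m : ℝ)) ^ m) * κ ^ m *
      (X / (Real.log X) ^ m) * V =
      ((80 * 2 ^ m) ^ m * Real.exp (Helper13.Om.Kt m)) * κ ^ m * (X / (Real.log X) ^ m) * V +
        (3 * (2 * (m : ℝ)) ^ m) * κ ^ m * (X / (Real.log X) ^ m) * V := by ring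
  rw [hfin]
  linarith

end Pool.Agent.Helper8.UGU
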