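import Pool.Agent.Helper8.UGU.All

/-!
# Project UGU: one gap for all systems of pairwise non-proportional linear forms
-/

set_option autoImplicit false

namespace Pool.Agent.Helper8.UGU

open Finset UGE

/-- The sum over a class of the multiples of `A`. -/
theorem class_sum (A q r M M' : ℕ) (hA : 0 < A) (h1 : A * M ≤ M')
    (h2 : M' < A * (M + 1)) (f : ℕ → ℝ) :
    ∑ n ∈ (Icc 1 M).filter (fun n => n % q = r), f (A * n) =
      ∑ m ∈ (Icc 1 M').filter (fun m => m % (A * q) = A * r), f m := by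
  classical
  have h : (Icc 1 M').filter (fun m => m % (A * q) = A * r) =
      ((Icc 1 M).filter (fun n => n % q = r)).image (fun n => A * n) := by
    ext m
    simp only [Finset.mem_filter, Finset.mem_Icc, Finset.mem_image]
    constructor
    · rintro ⟨⟨hm1, hm2⟩, hm⟩
      have hdvd : A ∣ m := by
        have h3 := Nat.div_add_mod m (A * q)
        rw [hm] at h3
        rw [← h3]
        exact Dvd.dvd.add ((Dvd.intro q rfl).mul_right _) (Dvd.intro r rfl)
      obtain ⟨n, rfl⟩ := hdvd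
      rw [Nat.mul_mod_mul_left] at hm
      refine ⟨n, ⟨⟨?_, ?_⟩, Nat.eq_of_mul_eq_mul_left hA hm⟩, rfl⟩
      · rcases Nat.eq_zero_or_pos n with h3 | h3
        · rw [h3, mul_zero] at hm1; omega
        · exact h3
      · have h3 : A * n < A * (M + 1) := lt_of_le_of_lt hm2 h2
        exact Nat.lt_succ_iff.1 (Nat.lt_of_mul_lt_mul_left h3)
    · rintro ⟨n, ⟨⟨hn1, hn2⟩, hn⟩, rfl⟩
      refine ⟨⟨Nat.mul_pos hA hn1, (Nat.mul_le_mul_left A hn2).trans h1⟩, ?_⟩
      rw [Nat.mul_mod_mul_left, hn]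
  rw [h, Finset.sum_image]
  intro x _ y _ hxy
  exact Nat.eq_of_mul_eq_mul_left hA hxy

/-- The reduction of a system of forms to shifts. -/
theorem forms_shift (l : ℕ) (a b : Fin l → ℕ) (ha : ∀ i, 1 ≤ a i)
    (hab : ∀ i j, i ≠ j → a i * b j ≠ a j * b i) :
    ∃ (A : ℕ) (B : Finset ℕ) (σ : ℝ), 0 < A ∧ B.card = l ∧ |σ| = 1 ∧ ∀ n : ℕ, 1 ≤ n →
      ∏ i, (-1 : ℝ) ^ (ArithmeticFunction.cardFactors (a i * n + b i)) =
        σ * ∏ b' ∈ B, (-1 : ℝ) ^ (ArithmeticFunction.cardFactors (A * n + b')) := by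
  classical
  set A : ℕ := ∏ i, a i with hA
  have hA0 : 0 < A := Finset.prod_pos fun i _ => ha i
  have hdvd : ∀ i, a i ∣ A := fun i => Finset.dvd_prod_of_mem a (Finset.mem_univ i)
  have hq : ∀ i, a i * (A / a i) = A := fun i => Nat.mul_div_cancel' (hdvd i)
  have hq0 : ∀ i, A / a i ≠ 0 := fun i h => by
    have := hq i
    rw [h, mul_zero] at this
    omega
  set c : Fin l → ℕ := fun i => (A / a i) * b i with hc
  have hinj : Function.Injective c := by
    intro i j hij
    by_contra hne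
    apply hab i j hne
    simp only [hc] at hij
    have h1 : A * (a j * b i) = A * (a i * b j) := by
      calc A * (a j * b i) = (a i * (A / a i)) * (a j * b i) := by rw [hq i]
        _ = a i * a j * ((A / a i) * b i) := by ring
        _ = a i * a j * ((A / a j) * b j) := by rw [hij]
        _ = (a j * (A / a j)) * (a i * b j) := by ring
        _ = A * (a i * b j) := by rw [hq j]
    exact (Nat.eq_of_mul_eq_mul_left hA0 h1).symm
  refine ⟨A, Finset.univ.image c, ∏ i, (-1 : ℝ) ^ (ArithmeticFunction.cardFactors (A / a i)), hA0, ?_,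
    ?_, fun n hn => ?_⟩
  · rw [Finset.card_image_of_injective _ hinj, Finset.card_univ, Fintype.card_fin]
  · rw [Finset.abs_prod]
    refine Finset.prod_eq_one fun i _ => ?_
    rw [abs_pow, abs_neg, abs_one, one_pow]
  · rw [Finset.prod_image (fun x _ y _ h => hinj h), ← Finset.prod_mul_distrib]
    refine Finset.prod_congr rfl fun i _ => ?_
    have h1 : A * n + c i = (A / a i) * (a i * n + b i) := by
      simp only [hc]
      calc A * n + A / a i * b i = (a i * (A / a i)) * n + A / a i * b i := by rw [hq i]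
        _ = _ := by ring
    have h2 : a i * n + b i ≠ 0 := by
      have : 0 < a i * n := Nat.mul_pos (ha i) hn
      omega
    rw [h1, ArithmeticFunction.cardFactors_mul (hq0 i) h2, pow_add, ← mul_assoc, ← pow_add]
    have h3 : (-1 : ℝ) ^ (ArithmeticFunction.cardFactors (A / a i) +
        ArithmeticFunction.cardFactors (A / a i)) = 1 := by
      rw [← two_mul, pow_mul]
      norm_num
    rw [h3, one_mul]

/-- **One gap for all systems of `l` pairwise non-proportional linear forms and all moduli.** -/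
theorem gap_forms (l : ℕ) (hl : 1 ≤ l) : ∃ δ : ℝ, 0 < δ ∧ δ < 1 ∧
    ∀ a b : Fin l → ℕ, (∀ i, 1 ≤ a i) → (∀ i j, i ≠ j → a i * b j ≠ a j * b i) →
    ∀ q : ℕ, 1 ≤ q → ∀ ε : ℝ, 0 < ε → ∃ K₀ : ℕ, ∀ N K : ℕ, K₀ ≤ K → K ≤ N →
      ∑ M ∈ (Ioc (N / K) N).filter (fun M : ℕ => ∃ r < q, (1 - δ) * ((M : ℝ) / q) <
        |∑ n ∈ (Icc 1 M).filter (fun n => n % q = r),
          ∏ i, (-1 : ℝ) ^ (ArithmeticFunction.cardFactors (a i * n + b i))|), 1 / (M : ℝ) ≤
        ε * Real.log K := by
  classical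
  obtain ⟨δ, hδ, hδ1, hgap⟩ := uniform_gap l hl
  refine ⟨δ / 2, by positivity, by linarith, fun a b ha hab q hq ε hε => ?_⟩
  obtain ⟨A, B, σ, hA, hB, hσ, hprod⟩ := forms_shift l a b ha hab
  have hqR : (0 : ℝ) < q := by exact_mod_cast hq
  have hAR : (0 : ℝ) < A := by exact_mod_cast hA
  obtain ⟨K₁, hK₁⟩ := hgap (A * q) (Nat.mul_pos hA hq) B hB (ε / 8) (by positivity)
  -- small scales
  obtain ⟨M₀, hM₀⟩ := exists_nat_gt (2 / δ)
  set c : ℝ := ∑ M ∈ Icc 1 M₀, 1 / (M : ℝ) with hc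
  have hc0 : 0 ≤ c := Finset.sum_nonneg fun M _ => by positivity
  obtain ⟨K₂, hK₂⟩ := exists_nat_gt (Real.exp (2 * c / ε))
  refine ⟨K₁ + K₂ + 2 * A + 1, fun N K hK hKN => ?_⟩
  have hK2 : Real.exp (2 * c / ε) ≤ K := by
    have : (K₂ : ℝ) ≤ K := by exact_mod_cast (by omega : K₂ ≤ K)
    linarith
  have hKpos : (0 : ℝ) < K := lt_of_lt_of_le (Real.exp_pos _) hK2
  have hlog : 2 * c ≤ ε * Real.log K := by
    have h2 := (Real.le_log_iff_exp_le hKpos).2 hK2
    rw [div_le_iff₀ hε] at h2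
    linarith
  set bad : ℕ → Prop := fun M => M₀ < M ∧ ∃ r < q, (1 - δ / 2) * ((M : ℝ) / q) <
        |∑ n ∈ (Icc 1 M).filter (fun n => n % q = r),
          ∏ i, (-1 : ℝ) ^ (ArithmeticFunction.cardFactors (a i * n + b i))| with hbad
  set bad' : ℕ → Prop := fun M => ∃ r < A * q, (1 - δ) * ((M : ℝ) / ((A * q : ℕ) : ℝ)) <
        |∑ n ∈ (Icc 1 M).filter (fun n => n % (A * q) = r),
          ∏ b' ∈ B, (-1 : ℝ) ^ (ArithmeticFunction.cardFactors (n + b'))| with hbad'
  -- the transfer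
  have htr : ∀ X : ℕ, bad (X / A) → bad' X := by
    rintro X ⟨hM, r, hr, hlt⟩
    set M : ℕ := X / A with hMd
    have h1 : A * M ≤ X := Nat.mul_div_le X A
    have h2 : X < A * (M + 1) := Nat.lt_mul_div_succ X hA
    refine ⟨A * r, Nat.mul_lt_mul_of_pos_left hr hA, ?_⟩
    have h3 : ∑ n ∈ (Icc 1 M).filter (fun n => n % q = r),
        ∏ i, (-1 : ℝ) ^ (ArithmeticFunction.cardFactors (a i * n + b i)) =
        σ * ∑ m ∈ (Icc 1 X).filter (fun m => m % (A * q) = A * r),
          ∏ b' ∈ B, (-1 : ℝ) ^ (ArithmeticFunction.cardFactors (m + b')) := by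
      rw [← class_sum A q r M X hA h1 h2
        (fun m => ∏ b' ∈ B, (-1 : ℝ) ^ (ArithmeticFunction.cardFactors (m + b'))), Finset.mul_sum]
      refine Finset.sum_congr rfl fun n hn => ?_
      exact hprod n (Finset.mem_Icc.1 (Finset.mem_filter.1 hn).1).1
    rw [h3, abs_mul, hσ, one_mul] at hlt
    refine lt_of_le_of_lt ?_ hlt
    -- the thresholds
    have h4 : (X : ℝ) / ((A * q : ℕ) : ℝ) ≤ (M + 1) / q := by
      have h5 : (X : ℝ) ≤ A * (M + 1) := by exact_mod_cast h2.le
      rw [div_le_div_iff₀ (by exact_mod_cast Nat.mul_pos hA hq) hqR]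
      push_cast
      calc (X : ℝ) * q ≤ (A * (M + 1)) * q := mul_le_mul_of_nonneg_right h5 hqR.le
        _ = (M + 1) * (A * q) := by ring
    have h6 : 2 / δ < M := by
      have : (M₀ : ℝ) < M := by exact_mod_cast hM
      linarith
    have h7 : 2 < δ * M := by
      rw [div_lt_iff₀ hδ] at h6
      linarith
    calc (1 - δ) * ((X : ℝ) / ((A * q : ℕ) : ℝ)) ≤ (1 - δ) * ((M + 1) / q) :=
          mul_le_mul_of_nonneg_left h4 (by linarith)
      _ = ((1 - δ) * (M + 1)) / q := by ring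
      _ ≤ ((1 - δ / 2) * M) / q := by
          apply div_le_div_of_nonneg_right _ hqR.le
          nlinarith
      _ = (1 - δ / 2) * ((M : ℝ) / q) := by ring
  -- the windows
  have hN1 : 1 ≤ N := by omega
  have hK0 : 0 < K := by omega
  set N' : ℕ := A * (N + 1) with hN'
  set K' : ℕ := min (2 * A * K) N' with hK'
  have hKK' : K ≤ K' := by
    rw [hK', le_min_iff]
    constructor
    · calc K = 1 * K := (one_mul K).symm
        _ ≤ 2 * A * K := Nat.mul_le_mul_right K (by omega)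
    · calc K ≤ 1 * (N + 1) := by omega
        _ ≤ A * (N + 1) := Nat.mul_le_mul_right _ hA
  have hwin : N' / K' ≤ N / K := by
    rcases le_total (2 * A * K) N' with h | h
    · have e1 : K' = 2 * A * K := by rw [hK', min_eq_left h]
      rw [e1, hN']
      have e2 : A * (N + 1) / (2 * A * K) = (N + 1) / (2 * K) := by
        rw [show 2 * A * K = A * (2 * K) by ring, Nat.mul_div_mul_left _ _ hA]
      rw [e2]
      calc (N + 1) / (2 * K) ≤ (2 * N) / (2 * K) := Nat.div_le_div_right (by omega)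
        _ = N / K := Nat.mul_div_mul_left _ _ (by norm_num)
    · have e1 : K' = N' := by rw [hK', min_eq_right h]
      rw [e1, Nat.div_self (Nat.mul_pos hA (by omega))]
      exact (Nat.one_le_div_iff hK0).2 hKN
  have hmain := hK₁ N' K' (by omega) (min_le_right _ _)
  have hpull := pull A N K A hA le_rfl bad
  have h1 : ∑ X ∈ Ioc (N / K) (A * (N + 1)), (if bad (X / A) then 1 / (X : ℝ) else 0) ≤
      ∑ X ∈ (Ioc (N' / K') N').filter bad', 1 / (X : ℝ) := by
    rw [← Finset.sum_filter]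
    refine Finset.sum_le_sum_of_subset_of_nonneg ?_ fun X _ _ => by positivity
    intro X hX
    rw [Finset.mem_filter, Finset.mem_Ioc] at hX ⊢
    exact ⟨⟨lt_of_le_of_lt hwin hX.1.1, hX.1.2⟩, htr X hX.2⟩
  have hlogK : Real.log K' ≤ 2 * Real.log K := by
    have e1 : (K' : ℝ) ≤ (K : ℝ) * K := by
      have : K' ≤ K * K := (min_le_left _ _).trans (Nat.mul_le_mul_right K (by omega))
      exact_mod_cast this
    have e2 : (0 : ℝ) < K' := by exact_mod_cast lt_of_lt_of_le hK0 hKK'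
    calc Real.log K' ≤ Real.log ((K : ℝ) * K) := Real.log_le_log e2 e1
      _ = 2 * Real.log K := by
          rw [Real.log_mul hKpos.ne' hKpos.ne']
          ring
  have h2 : ∑ M ∈ Ioc (N / K) N, (if bad M then 1 / (M : ℝ) else 0) ≤ ε / 2 * Real.log K := by
    have h3 : ∑ X ∈ (Ioc (N' / K') N').filter bad', 1 / (X : ℝ) ≤ ε / 8 * Real.log K' := hmain
    have h4 : ε / 8 * Real.log K' ≤ ε / 8 * (2 * Real.log K) :=
      mul_le_mul_of_nonneg_left hlogK (by positivity)
    linarith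
  -- the small scales
  have h3 : ∑ M ∈ (Ioc (N / K) N).filter (fun M : ℕ => ∃ r < q, (1 - δ / 2) * ((M : ℝ) / q) <
        |∑ n ∈ (Icc 1 M).filter (fun n => n % q = r),
          ∏ i, (-1 : ℝ) ^ (ArithmeticFunction.cardFactors (a i * n + b i))|), 1 / (M : ℝ) ≤
      ∑ M ∈ Ioc (N / K) N, (if bad M then 1 / (M : ℝ) else 0) + c := by
    rw [Finset.sum_filter]
    have e1 : ∑ M ∈ Ioc (N / K) N, (if M ≤ M₀ then 1 / (M : ℝ) else 0) ≤ c := by
      rw [hc, ← Finset.sum_filter]
      refine Finset.sum_le_sum_of_subset_of_nonneg ?_ fun M _ _ => by positivity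
      intro M hM
      rw [Finset.mem_filter, Finset.mem_Ioc] at hM
      rw [Finset.mem_Icc]
      exact ⟨Nat.succ_le_of_lt (lt_of_le_of_lt (Nat.zero_le _) hM.1.1), hM.2⟩
    refine le_trans ?_ (add_le_add le_rfl e1)
    rw [← Finset.sum_add_distrib]
    refine Finset.sum_le_sum fun M _ => ?_
    have hpos : 0 ≤ 1 / (M : ℝ) := by positivity
    by_cases hM : M ≤ M₀
    · rw [if_pos hM]
      split_ifs <;> linarith
    · rw [if_neg hM, add_zero]
      push Not at hM
      by_cases hb : ∃ r < q, (1 - δ / 2) * ((M : ℝ) / q) <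
        |∑ n ∈ (Icc 1 M).filter (fun n => n % q = r),
          ∏ i, (-1 : ℝ) ^ (ArithmeticFunction.cardFactors (a i * n + b i))|
      · rw [if_pos hb, if_pos (show bad M from ⟨hM, hb⟩)]
      · rw [if_neg hb]
        split_ifs <;> linarith
  linarith

end Pool.Agent.Helper8.UGU
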